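import Mathlib
import Pool.Agent.E8helper48.RR.Stm4

/-! Project RR, piece N2D -/

set_option autoImplicit false

namespace Pool.Agent.E8helper31.RR
open RR48

theorem t_N2D : S_N2D := by
  intro D z h1 h3 h2 h
  have hz : 1 / 4 ≤ z := by nlinarith
  have p3 : 0 < 1 - 3 * z - 6 * z ^ 2 + 20 * z ^ 3 := by
    have a : 0 ≤ (z - 69 / 200) ^ 2 * z := mul_nonneg (sq_nonneg _) (by linarith)
    nlinarith [sq_nonneg (z - 69 / 200)]
  have key : (4 * z - 1) * ((1 + D) * (2 * D - 1) * z ^ 3 + (3 - D ^ 2) * z ^ 2 - 3 * z + 1) =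
      (3 - D) * (z ^ 2 * (1 - z)) + ((1 + D) * z - 1) * (1 - 3 * z - 6 * z ^ 2 + 20 * z ^ 3) +
        z * (1 - 2 * z) * (3 - D) * ((1 + D) * z - 1) * (4 * z - 1) := by ring
  have e0 : 0 ≤ 4 * z - 1 := by linarith
  have e1 : 0 ≤ 3 - D := by linarith
  have e2 : 0 ≤ (1 + D) * z - 1 := by linarith
  have e3 : 0 ≤ 1 - 2 * z := by linarith
  have e4 : 0 ≤ 1 - z := by linarith
  have e5 : 0 ≤ z := by linarith
  rcases eq_or_lt_of_le hz with hz4 | hz4
  · have hD : D = 3 := by rw [← hz4] at h; linarith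
    rw [hD, ← hz4]; norm_num
  · have hR : 0 ≤ (3 - D) * (z ^ 2 * (1 - z)) +
        ((1 + D) * z - 1) * (1 - 3 * z - 6 * z ^ 2 + 20 * z ^ 3) +
        z * (1 - 2 * z) * (3 - D) * ((1 + D) * z - 1) * (4 * z - 1) := by
      have := p3.le
      positivity
    rw [← key] at hR
    have h5 : 0 < 4 * z - 1 := by linarith
    by_contra hc
    push Not at hc
    exact absurd hR (not_le.2 (mul_neg_of_pos_of_neg h5 hc))

end Pool.Agent.E8helper31.RR
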